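import Mathlib

set_option autoImplicit false

namespace H316Z.Acyl

variable {G : Type} [Group G] {X : Type} [MetricSpace X] [MulAction G X]

/-- four point condition -/
def Four (X : Type) [MetricSpace X] (δ : ℝ) : Prop :=
  ∀ x y z w : X, dist x y + dist z w ≤ max (dist x z + dist y w) (dist x w + dist y z) + 2 * δ

/-- isometric action -/
def Iso (G X : Type) [Group G] [MetricSpace X] [MulAction G X] : Prop :=
  ∀ (h : G) (x y : X), dist (h • x) (h • y) = dist x y

theorem Four.nonneg {δ : ℝ} (h4 : Four X δ) (o : X) : 0 ≤ δ := by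
  have := h4 o o o o
  simp at this
  linarith

theorem Iso.pow_dist (hi : Iso G X) (s : G) (o : X) (m n : ℕ) :
    dist (s ^ m • o) (s ^ (m + n) • o) = dist o (s ^ n • o) := by
  rw [pow_add, mul_smul, hi]

theorem Iso.inv_dist (hi : Iso G X) (s : G) (x y : X) : dist (s⁻¹ • x) y = dist x (s • y) := by
  rw [← hi s, smul_inv_smul]

theorem Iso.inv_pow (hi : Iso G X) (s : G) (o : X) (n : ℕ) :
    dist o (s⁻¹ ^ n • o) = dist o (s ^ n • o) := by
  rw [dist_comm, _root_.inv_pow, hi.inv_dist]

theorem chain {δ : ℝ} (h4 : Four X δ) (hi : Iso G X) (s : G) (o : X) (K : ℝ) (hK : 0 < K)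
    (h : dist o (s • o) + 2 * δ + K ≤ dist o (s ^ 2 • o)) (n : ℕ) :
    dist o (s ^ n • o) + K ≤ dist o (s ^ (n + 1) • o) := by
  have hδ := h4.nonneg o
  induction n with
  | zero =>
    have h1 := dist_triangle o (s ^ 1 • o) (s ^ (1 + 1) • o)
    rw [hi.pow_dist] at h1
    simp only [pow_one, pow_zero, one_smul, dist_self, zero_add] at h1 ⊢
    norm_num at h1
    linarith
  | succ n ih =>
    have h1 := h4 o (s ^ (n + 1) • o) (s ^ n • o) (s ^ (n + 2) • o)
    have e1 : dist (s ^ (n + 1) • o) (s ^ (n + 2) • o) = dist o (s • o) := by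
      have := hi.pow_dist s o (n + 1) 1
      rwa [pow_one] at this
    have e2 : dist (s ^ (n + 1) • o) (s ^ n • o) = dist o (s • o) := by
      have := hi.pow_dist s o n 1
      rwa [pow_one, dist_comm] at this
    rw [hi.pow_dist, e1, e2] at h1
    rcases le_total (dist o (s ^ n • o) + dist o (s • o)) (dist o (s ^ (n + 2) • o) + dist o (s • o))
      with h2 | h2
    · rw [max_eq_right h2] at h1
      show _ ≤ dist o (s ^ (n + 2) • o)
      linarith
    · rw [max_eq_left h2] at h1
      linarith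

theorem chain_lin {δ : ℝ} (h4 : Four X δ) (hi : Iso G X) (s : G) (o : X) (K : ℝ) (hK : 0 < K)
    (h : dist o (s • o) + 2 * δ + K ≤ dist o (s ^ 2 • o)) (n : ℕ) :
    K * n ≤ dist o (s ^ n • o) := by
  induction n with
  | zero => simp
  | succ n ih =>
    have := chain h4 hi s o K hK h n
    push_cast
    linarith

theorem exists_good_pow (g : G) (o : X) (c : ℝ) (hc : 0 < c)
    (h : ∀ n : ℕ, c * n ≤ dist o (g ^ n • o)) (M : ℝ) :
    ∃ N : ℕ, dist o ((g ^ N) • o) + M ≤ dist o ((g ^ N) ^ 2 • o) := by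
  by_contra hcon
  push Not at hcon
  have key : ∀ k : ℕ, dist o (g ^ (2 ^ k) • o) ≤ dist o (g • o) + k * |M| := by
    intro k
    induction k with
    | zero => simp
    | succ k ih =>
      have h1 := hcon (2 ^ k)
      rw [← pow_mul, ← pow_succ] at h1
      have := le_abs_self M
      push_cast
      linarith
  obtain ⟨j, hj⟩ := exists_nat_gt ((dist o (g • o) + 2 * |M|) / c + 1)
  have h1 := key (2 * j)
  have h2 := h (2 ^ (2 * j))
  have h3 : (j : ℝ) < 2 ^ j := by exact_mod_cast Nat.lt_two_pow_self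
  have hpos : 0 ≤ (dist o (g • o) + 2 * |M|) / c := by positivity
  have hj1 : (1 : ℝ) ≤ j := by linarith
  have h4 : (j : ℝ) * j ≤ ((2 ^ (2 * j) : ℕ) : ℝ) := by
    push_cast
    rw [two_mul, pow_add]
    nlinarith
  have h5 : dist o (g • o) + 2 * |M| < c * j := by
    have : (dist o (g • o) + 2 * |M|) / c < j := by linarith
    rw [div_lt_iff₀ hc] at this
    linarith
  push_cast at h1
  have h6 : c * (j * j) ≤ dist o (g • o) + 2 * j * |M| := by
    calc c * (j * j) ≤ c * ((2 ^ (2 * j) : ℕ) : ℝ) := by gcongr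
      _ ≤ _ := h2
      _ ≤ _ := h1
  have h7 : 0 ≤ dist o (g • o) := dist_nonneg
  have h8 : 0 ≤ |M| := abs_nonneg M
  nlinarith

/-- the data of a quasi-geodesic length sequence -/
structure QG (a : ℕ → ℝ) (E : ℝ) : Prop where
  zero : a 0 = 0
  step : ∀ n, a n + 1 ≤ a (n + 1)
  sub : ∀ m n, a (m + n) ≤ a m + a n
  sup : ∀ m n, a m + a n - E ≤ a (m + n)

theorem QG.mono {a : ℕ → ℝ} {E : ℝ} (q : QG a E) : StrictMono a :=
  strictMono_nat_of_lt_succ (fun n => by have := q.step n; linarith)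

theorem QG.ge {a : ℕ → ℝ} {E : ℝ} (q : QG a E) (n : ℕ) : (n : ℝ) ≤ a n := by
  induction n with
  | zero => simp [q.zero]
  | succ n ih => have := q.step n; push_cast; linarith

theorem qg_of {δ : ℝ} (h4 : Four X δ) (hi : Iso G X) (s : G) (o : X)
    (h : dist o (s • o) + 2 * δ + (δ + 1) ≤ dist o (s ^ 2 • o)) :
    QG (fun n => dist o (s ^ n • o)) (dist o (s • o) + 2 * δ) := by
  have hδ := h4.nonneg o
  have hc := chain h4 hi s o (δ + 1) (by linarith) h
  refine ⟨by simp, fun n => by have := hc n; linarith, fun m n => ?_, fun m n => ?_⟩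
  · have := dist_triangle o (s ^ m • o) (s ^ (m + n) • o)
    rwa [hi.pow_dist] at this
  · rcases n with _ | n
    · have : 0 ≤ dist o (s • o) := dist_nonneg
      simp
      linarith
    · have h1 := h4 o (s ^ (m + 1) • o) (s ^ (m + (n + 1)) • o) (s ^ m • o)
      have e1 : dist (s ^ (m + (n + 1)) • o) (s ^ m • o) = dist o (s ^ (n + 1) • o) := by
        rw [dist_comm, hi.pow_dist]
      have e2 : dist (s ^ (m + 1) • o) (s ^ m • o) = dist o (s • o) := by
        have := hi.pow_dist s o m 1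
        rwa [pow_one, dist_comm] at this
      have e3 : dist (s ^ (m + 1) • o) (s ^ (m + (n + 1)) • o) = dist o (s ^ n • o) := by
        have := hi.pow_dist s o (m + 1) n
        rwa [show m + 1 + n = m + (n + 1) by ring] at this
      rw [e1, e2, e3] at h1
      have c1 := hc m
      have c2 := hc n
      rcases le_total (dist o (s ^ (m + (n + 1)) • o) + dist o (s • o))
        (dist o (s ^ m • o) + dist o (s ^ n • o)) with h2 | h2
      · rw [max_eq_right h2] at h1
        linarith
      · rw [max_eq_left h2] at h1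
        linarith

/-- fellow travelling of two quasi-geodesic rays -/
theorem fellow {δ : ℝ} (h4 : Four X δ) {a : ℕ → ℝ} {E : ℝ} (q : QG a E) (D : ℝ) (T : ℕ) :
    ∃ B : ℝ, ∀ (P Q : ℕ → X), (∀ i k, dist (P i) (P (i + k)) = a k) →
      (∀ i k, dist (Q i) (Q (i + k)) = a k) → dist (P 0) (Q 0) ≤ D →
      ∀ m n, dist (P m) (Q n) < a m + a n - B →
      ∃ i0 j0, ∀ t ≤ T, dist (P (i0 + t)) (Q (j0 + t)) ≤ a 1 + 2 * E + 8 * δ := by
  classical
  obtain ⟨j0, hj0⟩ := exists_nat_gt (D + E / 2 + δ)
  have hj : D + E / 2 + δ < a j0 := hj0.trans_le (q.ge j0)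
  refine ⟨D + 2 * (a j0 + a T + D), fun P Q hP hQ hD m n hmn => ?_⟩
  have hδ := h4.nonneg (P 0)
  have hE : 0 ≤ E := by have := q.sup 0 0; simp [q.zero] at this; linarith
  have hP0 : ∀ k, dist (P 0) (P k) = a k := fun k => by simpa using hP 0 k
  have hQ0 : ∀ k, dist (Q 0) (Q k) = a k := fun k => by simpa using hQ 0 k
  set b : ℕ → ℝ := fun j => dist (P 0) (Q j) with hb
  have hbu : ∀ j, b j ≤ a j + D := fun j => by
    have := dist_triangle (P 0) (Q 0) (Q j)
    rw [hQ0] at this
    simp only [hb]; linarith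
  have hbl : ∀ j, a j - D ≤ b j := fun j => by
    have := dist_triangle (Q 0) (P 0) (Q j)
    rw [hQ0, dist_comm (Q 0)] at this
    simp only [hb]; linarith
  have hbs : ∀ j k, j0 ≤ j → b j + a k - E - 2 * δ ≤ b (j + k) := by
    intro j k hjj
    have h1 := h4 (P 0) (Q j) (Q 0) (Q (j + k))
    rw [hQ0, hQ, dist_comm (Q j) (Q 0), hQ0] at h1
    have h2 := q.sup j k
    have h3 := q.mono.monotone hjj
    have h5 := hbl j
    rcases le_total (dist (P 0) (Q 0) + a k) (dist (P 0) (Q (j + k)) + a j) with h6 | h6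
    · rw [max_eq_right h6] at h1
      simp only [hb]; linarith
    · rw [max_eq_left h6] at h1
      simp only [hb] at h5; linarith
  have hbs' : ∀ j k, b (j + k) ≤ b j + a k := by
    intro j k
    have := dist_triangle (P 0) (Q j) (Q (j + k))
    rwa [hQ] at this
  have hex : ∃ i, b j0 < a (i + 1) := by
    obtain ⟨i, hi⟩ := exists_nat_gt (b j0)
    exact ⟨i, hi.trans_le ((q.ge i).trans (q.mono.monotone (Nat.le_succ i)))⟩
  set i0 := Nat.find hex with hi0
  have hi1 : b j0 < a (i0 + 1) := Nat.find_spec hex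
  have hi2 : a i0 ≤ b j0 := by
    rcases Nat.eq_zero_or_pos i0 with h0 | h0
    · rw [h0, q.zero]; exact dist_nonneg
    · have := Nat.find_min hex (m := i0 - 1) (by omega)
      rw [show i0 - 1 + 1 = i0 by omega] at this
      exact not_lt.mp this
  have hi3 := q.sub i0 1
  have ham : a j0 + a T + D < a m := by
    have h1 := dist_triangle (P 0) (P m) (Q n)
    rw [hP0] at h1
    have := hbl n
    simp only [hb] at this
    linarith
  have han : a j0 + a T + D < a n := by
    have h1 := dist_triangle (P m) (Q n) (Q 0)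
    have h2 := dist_triangle (P m) (Q 0) (P 0)
    rw [dist_comm (Q n), hQ0] at h1
    rw [dist_comm (P m) (P 0), hP0, dist_comm (Q 0)] at h2
    linarith
  have hD0 : 0 ≤ D := dist_nonneg.trans hD
  refine ⟨i0, j0, fun t ht => ?_⟩
  have hat := q.mono.monotone ht
  have u1 : a (i0 + t) ≤ a j0 + a T + D := by
    have := q.sub i0 t
    have := hbu j0
    linarith
  have u2 : b (j0 + t) ≤ a j0 + a T + D := by
    have := hbs' j0 t
    have := hbu j0
    linarith
  obtain ⟨k, hk⟩ : ∃ k, m = i0 + t + k := by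
    have : i0 + t < m := q.mono.lt_iff_lt.mp (by linarith)
    exact ⟨m - (i0 + t), by omega⟩
  obtain ⟨l, hl⟩ : ∃ l, n = j0 + t + l := by
    have : j0 + t < n := q.mono.lt_iff_lt.mp (by have := q.sub j0 t; linarith)
    exact ⟨n - (j0 + t), by omega⟩
  have v1 : dist (P (i0 + t)) (P m) ≤ a m - a (i0 + t) + E := by
    have := q.sup (i0 + t) k
    rw [hk, hP]; linarith
  have v2 : dist (Q (j0 + t)) (Q n) ≤ b n - b (j0 + t) + E + 2 * δ := by
    have := hbs (j0 + t) l (by omega)
    rw [hl, hQ]; linarith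
  have v3 : dist (P m) (Q n) < a m + b n - 2 * (a j0 + a T + D) := by
    have := hbl n
    linarith
  have w1 := h4 (P (i0 + t)) (Q n) (P m) (P 0)
  rw [dist_comm (P m) (P 0), hP0, dist_comm (Q n) (P 0), dist_comm (P (i0 + t)) (P 0), hP0,
    dist_comm (Q n) (P m)] at w1
  have w2 : dist (P (i0 + t)) (Q n) ≤ b n - a (i0 + t) + E + 2 * δ := by
    rcases le_total (dist (P (i0 + t)) (P m) + dist (P 0) (Q n)) (a (i0 + t) + dist (P m) (Q n))
      with h6 | h6
    · rw [max_eq_right h6] at w1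
      linarith
    · rw [max_eq_left h6] at w1
      simp only [hb]; linarith
  have w3 := h4 (P (i0 + t)) (Q (j0 + t)) (Q n) (P 0)
  rw [dist_comm (Q n) (P 0), dist_comm (Q (j0 + t)) (P 0), dist_comm (P (i0 + t)) (P 0), hP0] at w3
  have x1 := q.sub i0 t
  have x2 := q.sup i0 t
  have x3 := hbs j0 t le_rfl
  have x4 := hbs' j0 t
  rcases le_total (dist (P (i0 + t)) (Q n) + dist (P 0) (Q (j0 + t)))
    (a (i0 + t) + dist (Q (j0 + t)) (Q n)) with h6 | h6
  · rw [max_eq_right h6] at w3
    simp only [hb] at *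
    linarith
  · rw [max_eq_left h6] at w3
    simp only [hb] at *
    linarith

end H316Z.Acyl
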