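import Pool.Agent.H316Z.Acyl.Geo

set_option autoImplicit false

namespace H316Z.Acyl

open Filter

variable {G : Type} [Group G] {X : Type} [MetricSpace X] [MulAction G X]

/-- acylindricity (finiteness and uniform bound) -/
def Acy (G X : Type) [Group G] [MetricSpace X] [MulAction G X] : Prop :=
  ∀ ε : ℝ, 0 < ε → ∃ (R : ℝ) (N : ℕ), ∀ x y : X, R ≤ dist x y →
    {h : G | dist x (h • x) ≤ ε ∧ dist y (h • y) ≤ ε}.Finite ∧
    {h : G | dist x (h • x) ≤ ε ∧ dist y (h • y) ≤ ε}.ncard ≤ N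

/-- elements conjugating `w` to `w` or its inverse -/
def Nm (w : G) : Subgroup G where
  carrier := {y | y * w * y⁻¹ = w ∨ y * w * y⁻¹ = w⁻¹}
  one_mem' := Or.inl (by simp)
  mul_mem' := by
    rintro a b (ha | ha) (hb | hb)
    · left
      calc a * b * w * (a * b)⁻¹ = a * (b * w * b⁻¹) * a⁻¹ := by group
        _ = w := by rw [hb, ha]
    · right
      calc a * b * w * (a * b)⁻¹ = a * (b * w * b⁻¹) * a⁻¹ := by group
        _ = (a * w * a⁻¹)⁻¹ := by rw [hb]; group
        _ = w⁻¹ := by rw [ha]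
    · right
      calc a * b * w * (a * b)⁻¹ = a * (b * w * b⁻¹) * a⁻¹ := by group
        _ = w⁻¹ := by rw [hb, ha]
    · left
      calc a * b * w * (a * b)⁻¹ = a * (b * w * b⁻¹) * a⁻¹ := by group
        _ = (a * w * a⁻¹)⁻¹ := by rw [hb]; group
        _ = w := by rw [ha, inv_inv]
  inv_mem' := by
    rintro a (ha | ha)
    · left
      calc a⁻¹ * w * a⁻¹⁻¹ = a⁻¹ * (a * w * a⁻¹) * a⁻¹⁻¹ := by rw [ha]
        _ = w := by group
    · right
      calc a⁻¹ * w * a⁻¹⁻¹ = a⁻¹ * (a * w * a⁻¹)⁻¹ * a⁻¹⁻¹ := by rw [ha, inv_inv w]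
        _ = w⁻¹ := by group

/-- unbounded overlap of the axis of `h` with its translate by `y` -/
def Unb (h : G) (o : X) (y : G) : Prop :=
  ∀ B : ℝ, ∃ u ∈ ({h, h⁻¹} : Set G), ∃ v ∈ ({h, h⁻¹} : Set G), ∃ m n : ℕ,
    dist (u ^ m • o) ((y * v ^ n) • o) < dist o (h ^ m • o) + dist o (h ^ n • o) - B

theorem pm_dist (hi : Iso G X) {h u : G} (hu : u ∈ ({h, h⁻¹} : Set G)) (o : X) (n : ℕ) :
    dist o (u ^ n • o) = dist o (h ^ n • o) := by
  rcases hu with rfl | rfl
  · rfl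
  · exact hi.inv_pow h o n

theorem travel {δ : ℝ} (h4 : Four X δ) (hi : Iso G X) {h : G} {o : X} {E : ℝ}
    (q : QG (fun n => dist o (h ^ n • o)) E) {y : G} (hy : Unb h o y) (T : ℕ) :
    ∃ u ∈ ({h, h⁻¹} : Set G), ∃ v ∈ ({h, h⁻¹} : Set G), ∃ i0 j0 : ℕ, ∀ t ≤ T,
      dist (u ^ (i0 + t) • o) ((y * v ^ (j0 + t)) • o) ≤ dist o (h ^ 1 • o) + 2 * E + 8 * δ := by
  obtain ⟨B, hB⟩ := fellow h4 q (dist o (y • o)) T
  obtain ⟨u, hu, v, hv, m, n, hmn⟩ := hy B
  obtain ⟨i0, j0, H⟩ := hB (fun i => u ^ i • o) (fun j => (y * v ^ j) • o)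
    (fun i k => by rw [hi.pow_dist, pm_dist hi hu])
    (fun i k => by rw [mul_smul, mul_smul, hi, hi.pow_dist, pm_dist hi hv])
    (by simp) m n hmn
  exact ⟨u, hu, v, hv, i0, j0, H⟩

theorem quot_mem (hi : Iso G X) {f f' : G} {o p p' : X} {ε : ℝ}
    (h1 : dist o (f • o) ≤ ε) (h2 : dist p' (f • p) ≤ ε)
    (h3 : dist o (f' • o) ≤ ε) (h4 : dist p' (f' • p) ≤ ε) :
    dist o ((f⁻¹ * f') • o) ≤ 2 * ε ∧ dist p ((f⁻¹ * f') • p) ≤ 2 * ε := by
  constructor
  · rw [← hi f, ← mul_smul, mul_inv_cancel_left]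
    have := dist_triangle_left (f • o) (f' • o) o
    linarith
  · rw [← hi f, ← mul_smul, mul_inv_cancel_left]
    have := dist_triangle_left (f • p) (f' • p) p'
    linarith

theorem main_geo {δ : ℝ} (h4 : Four X δ) (hi : Iso G X) (hA : Acy G X) {h : G} {o : X} {E : ℝ}
    (q : QG (fun n => dist o (h ^ n • o)) E) :
    ∃ M : ℕ, 0 < M ∧ (∀ y, Unb h o y → y ∈ Nm (h ^ M)) ∧
      ∃ F : Set G, F.Finite ∧ ∀ y, Unb h o y → ∃ i j : ℤ, ∃ f ∈ F, y = h ^ i * f * h ^ j := by
  classical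
  have hδ := h4.nonneg o
  have hE : 0 ≤ E := by have := q.sup 0 0; simp at this; linarith
  set ε := dist o (h ^ 1 • o) + 2 * E + 8 * δ with hε
  have hε1 : 0 < ε := by have := q.ge 1; simp only [Nat.cast_one] at this; linarith
  obtain ⟨R0, N, hRN⟩ := hA (2 * ε) (by linarith)
  obtain ⟨R, hR⟩ := exists_nat_ge R0
  have hR' : ∀ v ∈ ({h, h⁻¹} : Set G), R0 ≤ dist o (v ^ R • o) := fun v hv => by
    rw [pm_dist hi hv]; exact hR.trans (q.ge R)
  have hf : ∀ (y u v : G) (i j : ℕ), dist (u ^ i • o) ((y * v ^ j) • o) ≤ ε →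
      dist (u ^ (i + R) • o) ((y * v ^ (j + R)) • o) ≤ ε →
      dist o (((u ^ i)⁻¹ * y * v ^ j) • o) ≤ ε ∧
      dist (u ^ R • o) (((u ^ i)⁻¹ * y * v ^ j) • (v ^ R • o)) ≤ ε := by
    intro y u v i j h1 h2
    constructor
    · rw [← hi (u ^ i), ← mul_smul]
      convert h1 using 3
      group
    · rw [← hi (u ^ i), ← mul_smul, ← mul_smul, ← mul_smul]
      convert h2 using 3 <;> group
  refine ⟨N.factorial, N.factorial_pos, fun y hy => ?_, ?_⟩
  · obtain ⟨u, hu, v, hv, i0, j0, H⟩ := travel h4 hi q hy (N + R)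
    obtain ⟨hfin, hcard⟩ := hRN o (v ^ R • o) (hR' v hv)
    let f : ℕ → G := fun t => (u ^ (i0 + t))⁻¹ * y * v ^ (j0 + t)
    have hft : ∀ t ≤ N, dist o (f t • o) ≤ ε ∧ dist (u ^ R • o) (f t • (v ^ R • o)) ≤ ε := by
      intro t ht
      refine hf y u v _ _ (H t (by omega)) ?_
      have := H (t + R) (by omega)
      rwa [← add_assoc, ← add_assoc] at this
    have hmaps : ∀ t ∈ Finset.range (N + 1), (f 0)⁻¹ * f t ∈ hfin.toFinset := by
      intro t ht
      rw [Set.Finite.mem_toFinset]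
      have ht' : t ≤ N := by simpa [Nat.lt_succ_iff] using ht
      exact quot_mem hi (hft 0 (by omega)).1 (hft 0 (by omega)).2 (hft t ht').1 (hft t ht').2
    have hlt : hfin.toFinset.card < (Finset.range (N + 1)).card := by
      rw [← Set.ncard_eq_toFinset_card _ hfin, Finset.card_range]; omega
    obtain ⟨t, ht, t', ht', hne, heq⟩ := Finset.exists_ne_map_eq_of_card_lt_of_maps_to hlt hmaps
    have heq' : f t = f t' := mul_left_cancel heq
    have key : ∀ t t' : ℕ, t < t' → t' ≤ N → f t = f t' →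
        y * v ^ N.factorial * y⁻¹ = u ^ N.factorial := by
      intro t t' hlt hle he
      obtain ⟨k, rfl⟩ : ∃ k, t' = t + k := ⟨t' - t, by omega⟩
      obtain ⟨c, hc⟩ : k ∣ N.factorial := Nat.dvd_factorial (by omega) (by omega)
      have e1 : y * v ^ k * y⁻¹ = u ^ k := by
        simp only [f] at he
        calc y * v ^ k * y⁻¹ = u ^ (i0 + (t + k)) * ((u ^ (i0 + (t + k)))⁻¹ * y * v ^ (j0 + (t + k))) *
              (v ^ (j0 + t))⁻¹ * y⁻¹ := by group
          _ = u ^ (i0 + (t + k)) * ((u ^ (i0 + t))⁻¹ * y * v ^ (j0 + t)) *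
              (v ^ (j0 + t))⁻¹ * y⁻¹ := by rw [he]
          _ = u ^ k := by group
      rw [hc, pow_mul, pow_mul, ← e1, conj_pow]
    have ht1 : t ≤ N := by simpa [Nat.lt_succ_iff] using ht
    have ht2 : t' ≤ N := by simpa [Nat.lt_succ_iff] using ht'
    have key2 : y * v ^ N.factorial * y⁻¹ = u ^ N.factorial := by
      rcases lt_or_gt_of_ne hne with h1 | h1
      · exact key t t' h1 ht2 heq'
      · exact key t' t h1 ht1 heq'.symm
    have key3 : y * v⁻¹ ^ N.factorial * y⁻¹ = u⁻¹ ^ N.factorial := by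
      rw [inv_pow, inv_pow, ← key2]; group
    rcases hu with rfl | rfl <;> rcases hv with rfl | rfl
    · exact Or.inl key2
    · right; rw [inv_inv] at key3; rw [key3, inv_pow]
    · right; rw [key2, inv_pow]
    · left; simpa using key3
  · let W : G → G → Set G := fun u v =>
      {f | dist o (f • o) ≤ ε ∧ dist (u ^ R • o) (f • (v ^ R • o)) ≤ ε}
    have hW : ∀ u, ∀ v ∈ ({h, h⁻¹} : Set G), (W u v).Finite := by
      intro u v hv
      rcases (W u v).eq_empty_or_nonempty with he | ⟨f0, hf0⟩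
      · rw [he]; exact Set.finite_empty
      · refine ((hRN o (v ^ R • o) (hR' v hv)).1.image (fun z => f0 * z)).subset ?_
        intro f hf
        exact ⟨f0⁻¹ * f, quot_mem hi hf0.1 hf0.2 hf.1 hf.2, by simp⟩
    refine ⟨⋃ u ∈ ({h, h⁻¹} : Set G), ⋃ v ∈ ({h, h⁻¹} : Set G), W u v, ?_, fun y hy => ?_⟩
    · exact Set.Finite.biUnion (Set.toFinite _) (fun u _ =>
        Set.Finite.biUnion (Set.toFinite _) (fun v hv => hW u v hv))
    · obtain ⟨u, hu, v, hv, i0, j0, H⟩ := travel h4 hi q hy R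
      have hmem : (u ^ i0)⁻¹ * y * v ^ j0 ∈ W u v := hf y u v i0 j0 (H 0 (by omega)) (H R le_rfl)
      have hz : ∀ u ∈ ({h, h⁻¹} : Set G), ∀ i : ℕ, ∃ z : ℤ, u ^ i = h ^ z := by
        rintro u (rfl | rfl) i
        · exact ⟨i, by simp⟩
        · exact ⟨-i, by simp⟩
      obtain ⟨z1, hz1⟩ := hz u hu i0
      obtain ⟨z2, hz2⟩ := hz v hv j0
      refine ⟨z1, -z2, _, Set.mem_biUnion hu (Set.mem_biUnion hv hmem), ?_⟩
      rw [hz1, hz2]; group

theorem unb_of_mem (hi : Iso G X) {h : G} {o : X} {E : ℝ}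
    (q : QG (fun n => dist o (h ^ n • o)) E) {M : ℕ} (hM : 0 < M) {y : G} (hy : y ∈ Nm (h ^ M)) :
    Unb h o y := by
  intro B
  obtain ⟨n, hn⟩ := exists_nat_gt (dist o (y • o) + |B|)
  have h1 := q.ge (M * n)
  have h2 : (n : ℝ) ≤ ((M * n : ℕ) : ℝ) := by exact_mod_cast Nat.le_mul_of_pos_left n hM
  have h3 := le_abs_self B
  have h5 := abs_nonneg B
  have h6 : 0 ≤ dist o (y • o) := dist_nonneg
  have key : ∀ u : G, y * h ^ M * y⁻¹ = u ^ M →
      dist (u ^ (M * n) • o) ((y * h ^ (M * n)) • o) = dist o (y • o) := by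
    intro u hu
    have : y * h ^ (M * n) = u ^ (M * n) * y := by
      rw [pow_mul, pow_mul, ← hu, conj_pow]; group
    rw [this, mul_smul, hi]
  rcases hy with hy | hy
  · refine ⟨h, by simp, h, by simp, M * n, M * n, ?_⟩
    rw [key h hy]
    linarith
  · refine ⟨h⁻¹, by simp, h, by simp, M * n, M * n, ?_⟩
    rw [key h⁻¹ (by rw [hy, inv_pow])]
    linarith

theorem virt_cyclic (h : G) {M : ℕ} (hM : 0 < M) (htop : ∀ y, y ∈ Nm (h ^ M)) (F : Set G)
    (hF : F.Finite) (hy : ∀ y : G, ∃ i j : ℤ, ∃ f ∈ F, y = h ^ i * f * h ^ j) :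
    ∃ H : Subgroup G, H.FiniteIndex ∧ IsCyclic H := by
  set H := Subgroup.zpowers (h ^ M) with hH
  have hn : H.Normal := ⟨by
    rintro _ ⟨k, rfl⟩ g
    simp only
    rw [← conj_zpow]
    rcases htop g with e | e
    · rw [e]; exact ⟨k, rfl⟩
    · rw [e]; exact H.zpow_mem (H.inv_mem (Subgroup.mem_zpowers _)) k⟩
  have hfo : IsOfFinOrder (QuotientGroup.mk h : G ⧸ H) := by
    rw [isOfFinOrder_iff_pow_eq_one]
    refine ⟨M, hM, ?_⟩
    rw [← QuotientGroup.mk_pow, QuotientGroup.eq_one_iff]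
    exact Subgroup.mem_zpowers _
  have hZ : (Subgroup.zpowers (QuotientGroup.mk h : G ⧸ H) : Set (G ⧸ H)).Finite :=
    finite_zpowers.mpr hfo
  have hfin : (Set.univ : Set (G ⧸ H)).Finite := by
    refine (((hZ.prod hF).prod hZ).image
      (fun z => z.1.1 * (QuotientGroup.mk z.1.2 : G ⧸ H) * z.2)).subset ?_
    intro x _
    obtain ⟨y, rfl⟩ := QuotientGroup.mk_surjective x
    obtain ⟨i, j, f, hf, rfl⟩ := hy y
    refine ⟨((QuotientGroup.mk h ^ i, f), QuotientGroup.mk h ^ j), ⟨⟨⟨i, rfl⟩, hf⟩, ⟨j, rfl⟩⟩, ?_⟩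
    simp
  have : Finite (G ⧸ H) := Set.finite_univ_iff.mp hfin
  exact ⟨H, Subgroup.finiteIndex_of_finite_quotient, inferInstance⟩

/-- loxodromic with respect to the base point -/
def Lox (o : X) (s : G) : Prop := ∃ c : ℝ, 0 < c ∧ ∀ n : ℕ, c * (n : ℝ) ≤ dist o ((s ^ n) • o)

theorem tend {a : ℕ → ℝ} {E : ℝ} (q : QG a E) (C : ℝ) : ∀ᶠ N in atTop, C ≤ a N := by
  obtain ⟨n, hn⟩ := exists_nat_ge C
  filter_upwards [eventually_ge_atTop n] with N hN
  exact hn.trans ((q.ge n).trans (q.mono.monotone hN))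

theorem ev_lox {δ : ℝ} (h4 : Four X δ) (hi : Iso G X) {h : G} {o : X} {E : ℝ}
    (q : QG (fun n => dist o (h ^ n • o)) E) {y : G} (hy : ¬ Unb h o y) :
    ∀ᶠ N in atTop, Lox o (y * h ^ N) := by
  simp only [Unb, not_forall, not_exists, not_and, not_lt] at hy
  obtain ⟨B, hB⟩ := hy
  filter_upwards [tend q (B + 2 * dist o (y • o) + 2 * δ + 1)] with N hN
  refine ⟨1, one_pos, chain_lin h4 hi _ o 1 one_pos ?_⟩
  have h1 := hB h⁻¹ (by simp) h (by simp) N N
  have h2 := dist_triangle o (y • o) ((y * h ^ N) • o)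
  rw [mul_smul, hi] at h2
  have h3 := dist_triangle (y • o) o ((y * h ^ N) ^ 2 • o)
  have h5 : dist (y • o) ((y * h ^ N) ^ 2 • o) = dist (h⁻¹ ^ N • o) ((y * h ^ N) • o) := by
    rw [inv_pow, hi.inv_dist, pow_two, mul_assoc, mul_smul y, hi, ← mul_smul]
  rw [h5, dist_comm (y • o) o] at h3
  rw [mul_smul]
  linarith

theorem ev_noncomm (hi : Iso G X) {h : G} {o : X} {E : ℝ}
    (q : QG (fun n => dist o (h ^ n • o)) E) {s : G} (hs : ¬ Unb h o s) (y : G) :
    ∀ᶠ N in atTop, s * (y * h ^ N) ≠ (y * h ^ N) * s := by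
  simp only [Unb, not_forall, not_exists, not_and, not_lt] at hs
  obtain ⟨B, hB⟩ := hs
  filter_upwards [tend q (|B| + dist o ((y⁻¹ * s * y) • o) + 1)] with N hN he
  have h1 := hB h⁻¹ (by simp) h⁻¹ (by simp) N N
  have h2 : y⁻¹ * s * y = h ^ N * (s * h⁻¹ ^ N) := by
    calc y⁻¹ * s * y = y⁻¹ * (s * (y * h ^ N)) * h⁻¹ ^ N := by group
      _ = y⁻¹ * ((y * h ^ N) * s) * h⁻¹ ^ N := by rw [he]
      _ = _ := by group
  rw [inv_pow h, hi.inv_dist, ← mul_smul, ← inv_pow, ← h2] at h1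
  have h3 := le_abs_self B
  have h5 := abs_nonneg B
  have h6 : 0 ≤ dist o ((y⁻¹ * s * y) • o) := dist_nonneg
  linarith

theorem gens {δ : ℝ} (h4 : Four X δ) (hi : Iso G X) (hA : Acy G X) (hfg : Group.FG G)
    (hvc : ¬ ∃ H : Subgroup G, H.FiniteIndex ∧ IsCyclic H) (g : G) (o : X) (hg : Lox o g) :
    ∃ S : Finset G, Subgroup.closure (S : Set G) = ⊤ ∧ (∀ s ∈ S, Lox o s) ∧
      ∀ s ∈ S, ∀ t ∈ S, s ≠ t → s * t ≠ t * s := by
  classical
  obtain ⟨c, hc, hg⟩ := hg
  obtain ⟨N0, hN0⟩ := exists_good_pow g o c hc hg (2 * δ + (δ + 1))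
  set h := g ^ N0
  have q := qg_of h4 hi h o (by linarith)
  obtain ⟨M, hM, hNm, F, hF, hFy⟩ := main_geo h4 hi hA q
  have hh : h ∈ Nm (h ^ M) := Or.inl (by group)
  have hz : ∃ z, z ∉ Nm (h ^ M) := by
    by_contra hcon
    push Not at hcon
    exact hvc (virt_cyclic h hM hcon F hF (fun y => hFy y (unb_of_mem hi q hM (hcon y))))
  obtain ⟨z, hz⟩ := hz
  have build : ∀ Y : Finset G, (∀ y ∈ Y, y ∉ Nm (h ^ M)) → ∃ S : Finset G, h ∈ S ∧
      (∀ s ∈ S, s = h ∨ s ∉ Nm (h ^ M)) ∧ (∀ s ∈ S, Lox o s) ∧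
      (∀ s ∈ S, ∀ t ∈ S, s ≠ t → s * t ≠ t * s) ∧ ∀ y ∈ Y, y ∈ Subgroup.closure (S : Set G) := by
    intro Y
    induction Y using Finset.induction_on with
    | empty =>
      intro _
      refine ⟨{h}, by simp, by simp, ?_, by simp, by simp⟩
      intro s hs
      rw [Finset.mem_singleton.mp hs]
      exact ⟨1, one_pos, fun n => by simpa using q.ge n⟩
    | insert y Y _ ih =>
      intro hY
      obtain ⟨S, hS1, hS2, hS3, hS4, hS5⟩ := ih (fun y hy => hY y (Finset.mem_insert_of_mem hy))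
      have hy : y ∉ Nm (h ^ M) := hY y (Finset.mem_insert_self _ _)
      have e1 := ev_lox h4 hi q (fun hu => hy (hNm y hu))
      have e2 : ∀ᶠ N in atTop, ∀ s ∈ S, s * (y * h ^ N) ≠ (y * h ^ N) * s := by
        rw [Filter.eventually_all_finset]
        intro s hs
        rcases hS2 s hs with rfl | hs'
        · refine Eventually.of_forall (fun N he => hy (Or.inl ?_))
          have hc : Commute h y := by
            have : h * y * h ^ N = y * h * h ^ N := by
              calc h * y * h ^ N = h * (y * h ^ N) := by group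
                _ = y * h ^ N * h := he
                _ = _ := by group
            exact mul_right_cancel this
          rw [← (hc.pow_left M).eq]; group
        · exact ev_noncomm hi q (fun hu => hs' (hNm s hu)) y
      obtain ⟨N, hN1, hN2⟩ := (e1.and e2).exists
      refine ⟨insert (y * h ^ N) S, Finset.mem_insert_of_mem hS1, ?_, ?_, ?_, ?_⟩
      · intro s hs
        rcases Finset.mem_insert.mp hs with rfl | hs
        · right
          intro hm
          exact hy ((Subgroup.mul_mem_cancel_right _ (Subgroup.pow_mem _ hh N)).mp hm)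
        · exact hS2 s hs
      · intro s hs
        rcases Finset.mem_insert.mp hs with rfl | hs
        · exact hN1
        · exact hS3 s hs
      · intro s hs t ht hne
        rcases Finset.mem_insert.mp hs with rfl | hs <;> rcases Finset.mem_insert.mp ht with rfl | ht
        · exact absurd rfl hne
        · exact (hN2 t ht).symm
        · exact hN2 s hs
        · exact hS4 s hs t ht hne
      · intro x hx
        have hsub : Subgroup.closure (S : Set G) ≤
            Subgroup.closure ((insert (y * h ^ N) S : Finset G) : Set G) :=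
          Subgroup.closure_mono (by simp)
        rcases Finset.mem_insert.mp hx with rfl | hx
        · have h1 : x * h ^ N ∈ Subgroup.closure ((insert (x * h ^ N) S : Finset G) : Set G) :=
            Subgroup.subset_closure (by simp)
          have h2 : h ∈ Subgroup.closure ((insert (x * h ^ N) S : Finset G) : Set G) :=
            hsub (Subgroup.subset_closure hS1)
          exact (Subgroup.mul_mem_cancel_right _ (Subgroup.pow_mem _ h2 N)).mp h1
        · exact hsub (hS5 x hx)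
  obtain ⟨X0, hX0⟩ := hfg.out
  obtain ⟨S, _, _, hS3, hS4, hS5⟩ := build
    (insert z (X0.image (fun x => if x ∈ Nm (h ^ M) then x * z else x))) (by
      intro y hy
      rcases Finset.mem_insert.mp hy with rfl | hy
      · exact hz
      · obtain ⟨x, _, rfl⟩ := Finset.mem_image.mp hy
        split_ifs with hx
        · exact fun hm => hz ((Subgroup.mul_mem_cancel_left _ hx).mp hm)
        · exact hx)
  refine ⟨S, ?_, hS3, hS4⟩
  rw [eq_top_iff, ← hX0, Subgroup.closure_le]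
  intro x hx
  have hz' := hS5 z (Finset.mem_insert_self _ _)
  have hx' := hS5 _ (Finset.mem_insert_of_mem (Finset.mem_image_of_mem _ hx))
  split_ifs at hx' with hxx
  · exact (Subgroup.mul_mem_cancel_right _ hz').mp hx'
  · exact hx'

end H316Z.Acyl
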